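import Pool.Agent.PSS.StmtsS5

/-!
# Squad PSS, row SGN (helper81): the sum of the elements of a central group and nilpotent elements
-/

set_option autoImplicit false

open scoped BigOperators

noncomputable section

namespace Pool.Agent.PSS.S5.H81

open Pool.Agent.PSS Pool.Agent.PSS.S5

/-- row SGN -/
theorem sgn : SgnStmt := by
  classical
  intro F V B K _ _ _ _ _ _ _ α lam x y u n hc hF hu hn
  set σ : B := ∑ v, α v with hσ
  have hσc : ∀ b, σ * b = b * σ := by
    intro b
    rw [hσ, Finset.sum_mul, Finset.mul_sum]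
    exact Finset.sum_congr rfl fun v _ => hc v b
  have hσa : ∀ v, α v * σ = σ := by
    intro v
    rw [hσ, Finset.mul_sum]
    rw [← Equiv.sum_comp (Equiv.mulLeft v) (fun w => α w)]
    refine Finset.sum_congr rfl fun w _ => ?_
    rw [Equiv.coe_mulLeft, map_mul]
  let E : B →ₗ[F] B := ∑ k, (lam.comp (LinearMap.mulLeft F (y k))).smulRight (x k * σ)
  have hEa : ∀ s, E s = ∑ k, lam (y k * s) • (x k * σ) := by
    intro s
    show (∑ k, (lam.comp (LinearMap.mulLeft F (y k))).smulRight (x k * σ)) s = _
    rw [LinearMap.sum_apply]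
    rfl
  have hEσ : ∀ t, E (σ * t) = σ * t := by
    intro t
    rw [hEa]
    conv_rhs => rw [← hF.e1 (σ * t)]
    refine Finset.sum_congr rfl fun k _ => ?_
    have h1 : ∀ v, lam (α v⁻¹ * y k * (σ * t)) = lam (y k * (σ * t)) := by
      intro v
      congr 1
      calc α v⁻¹ * y k * (σ * t) = y k * (α v⁻¹ * (σ * t)) := by
            rw [hc v⁻¹ (y k), mul_assoc]
        _ = y k * (σ * t) := by rw [← mul_assoc (α v⁻¹), hσa]
    rw [Finset.sum_congr rfl fun v _ => by rw [h1 v]]
    rw [← Finset.smul_sum, ← Finset.mul_sum]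
  have hEr : ∀ s, ∃ t, E s = σ * t := by
    intro s
    refine ⟨∑ k, lam (y k * s) • x k, ?_⟩
    rw [hEa, Finset.mul_sum]
    refine Finset.sum_congr rfl fun k _ => ?_
    rw [mul_smul_comm, hσc]
  have hEb : ∀ b s, E (b * E s) = b * E s := by
    intro b s
    obtain ⟨t, ht⟩ := hEr s
    rw [ht, ← mul_assoc, ← hσc b, mul_assoc, hEσ]
  have hpow : ∀ (a : B) (i : ℕ) (s : B),
      (((LinearMap.mulLeft F a).comp E) ^ (i + 1)) s = a ^ (i + 1) * E s := by
    intro a i
    induction i with
    | zero =>
      intro s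
      rw [zero_add, pow_one, pow_one]
      rfl
    | succ i ih =>
      intro s
      rw [pow_succ', Module.End.mul_apply, ih]
      show a * E (a ^ (i + 1) * E s) = _
      rw [hEb, ← mul_assoc, ← pow_succ']
  have htr : ∀ a : B, IsNilpotent a → ∑ k, lam (y k * (a * (x k * σ))) = 0 := by
    intro a ha
    have h1 : (LinearMap.mulLeft F a).comp E =
        ∑ k, (lam.comp (LinearMap.mulLeft F (y k))).smulRight (a * (x k * σ)) := by
      ext s
      rw [LinearMap.sum_apply, LinearMap.comp_apply, hEa, map_sum]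
      refine Finset.sum_congr rfl fun k _ => ?_
      rw [map_smul]
      rfl
    have h2 : IsNilpotent ((LinearMap.mulLeft F a).comp E) := by
      obtain ⟨m, hm⟩ := ha
      refine ⟨m + 1, ?_⟩
      ext s
      rw [hpow, pow_succ, hm, zero_mul, zero_mul]
      rfl
    have h3 := LinearMap.isNilpotent_trace_of_isNilpotent h2
    have h4 := h3.eq_zero
    rw [h1, map_sum] at h4
    rw [← h4]
    refine Finset.sum_congr rfl fun k _ => ?_
    rw [LinearMap.trace_smulRight]
    rfl
  set ζ : B := ∑ k, x k * y k with hζ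
  have hz : ∀ m, lam (σ * ζ * n * m) = 0 := by
    intro m
    rw [← htr (n * m) (hn m), hζ, Finset.mul_sum, Finset.sum_mul, Finset.sum_mul, map_sum]
    refine Finset.sum_congr rfl fun k _ => ?_
    calc lam (σ * (x k * y k) * n * m) = lam ((σ * x k) * (y k * (n * m))) := by
          congr 1
          simp only [mul_assoc]
      _ = lam (y k * (n * m) * (σ * x k)) := hF.sym _ _
      _ = lam (y k * (n * m * (x k * σ))) := by
          congr 1
          rw [hσc, mul_assoc (y k)]
  have h0 : σ * ζ * n = 0 := by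
    rw [← hF.e2 (σ * ζ * n)]
    refine Finset.sum_eq_zero fun k _ => Finset.sum_eq_zero fun v _ => ?_
    rw [hz, zero_smul]
  calc σ * n = (u * ζ) * (σ * n) := by rw [hu, one_mul]
    _ = u * (σ * ζ * n) := by
      rw [hσc ζ]
      simp only [mul_assoc]
    _ = 0 := by rw [h0, mul_zero]

end Pool.Agent.PSS.S5.H81
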