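import Pool.Agent.PSS.StmtsS1a
import Pool.Agent.Helper49_PFD.FPF
import Pool.Agent.Helper13_PFD.EQF

/-!
# Squad PSS, row BVL (helper81): relative bilinear maps lift
-/

set_option autoImplicit false

open scoped BigOperators

noncomputable section

namespace Pool.Agent.PSS.H81

open Pool.Agent.PSS
open Pool.Agent.PFD.D2 (Cdv FibG)
open Pool.Agent.PFD.D2b (FrR FPl)
open Finset

section

variable {H Ω : Type} [Group H] [MulAction (H × H) Ω]

/-- the action of `H × H × H` on `Ω × Ω` -/
def act3 : MulAction (H × H × H) (Ω × Ω) where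
  smul x w := (((x.1, x.2.1) : H × H) • w.1, (x.2 : H × H) • w.2)
  one_smul := by
    rintro ⟨w, w'⟩
    show (((1 : H), (1 : H)) • w, ((1 : H), (1 : H)) • w') = (w, w')
    rw [show ((1 : H), (1 : H)) = (1 : H × H) from rfl, one_smul, one_smul]
  mul_smul := by
    rintro ⟨g, h, l⟩ ⟨g', h', l'⟩ ⟨w, w'⟩
    show (((g * g', h * h') : H × H) • w, ((h * h', l * l') : H × H) • w') =
      (((g, h) : H × H) • (((g', h') : H × H) • w), ((h, l) : H × H) • (((h', l') : H × H) • w'))
    rw [smul_smul, smul_smul]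
    rfl

/-- the projection to the outer factors -/
def p13 : H × H × H →* H × H where
  toFun x := (x.1, x.2.2)
  map_one' := rfl
  map_mul' _ _ := rfl

end

theorem kap_pi {R F : Type} [CommRing R] [Field F] (c : Cdv R F) : c.κ c.π = 0 :=
  (c.ker _).2 ⟨1, (mul_one _).symm⟩

/-- row BVL -/
theorem bvl : BvlStmt := by
  classical
  intro R F H M M₀ Ω _ _ c _ _ _ _ _ _ _ ρ ρ₀ q b cc hfr hq μ₀ hμ
  obtain ⟨hb, hc, hs⟩ := hfr
  obtain ⟨q1, q2, q3⟩ := hμ
  have hρ : ∀ (g h : H × H) (x : M), ρ (g * h) x = ρ g (ρ h x) := fun g h x => by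
    rw [map_mul]; rfl
  have hρ₀ : ∀ (g h : H × H) (x : M₀), ρ₀ (g * h) x = ρ₀ g (ρ₀ h x) := fun g h x => by
    rw [map_mul]; rfl
  let ρ' : H × H × H →* (M →ₗ[R] M) := ρ.comp p13
  have hfp : FPl c.π ρ' := by
    letI : MulAction (H × H × H) Ω := MulAction.compHom Ω (p13 (H := H))
    refine Pool.Agent.PFD.D2b.H49.fpf R (H × H × H) M Ω ρ' b cc c.π ⟨?_, ?_, hs⟩
    · intro g t
      exact hb (p13 g) t
    · intro g t n
      exact hc (p13 g) t n
  choose m hm using fun w : Ω × Ω => hq.sj (μ₀ (q (b w.1)) (q (b w.2)))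
  letI : MulAction (H × H × H) (Ω × Ω) := act3
  have hsm : ∀ (g h l : H) (w w' : Ω), ((g, h, l) : H × H × H) • ((w, w') : Ω × Ω) =
      (((g, h) : H × H) • w, ((h, l) : H × H) • w') := fun _ _ _ _ _ => rfl
  have hm2 : ∀ (g : H × H × H) (w : Ω × Ω), ∃ x, m (g • w) - ρ' g (m w) = c.π • x := by
    rintro ⟨g, h, l⟩ ⟨w, w'⟩
    rw [← hq.kr, map_sub, hm, hsm]
    show μ₀ (q (b (((g, h) : H × H) • w))) (q (b (((h, l) : H × H) • w'))) -
      q (ρ (g, l) (m (w, w'))) = 0
    rw [hb, hb, hq.eq, hq.eq, hq.eq, hm]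
    have e1 : ((g, h) : H × H) = (g, 1) * (1, h) := by simp
    have e2 : ((h, l) : H × H) = (h, 1) * (1, l) := by simp
    have e3 : ((g, l) : H × H) = (g, 1) * (1, l) := by simp
    rw [e1, hρ₀, q1, q2, ← hρ₀]
    have e4 : ((h⁻¹, 1) : H × H) * (h, l) = (1, l) := by simp
    rw [e4, q3, e3, hρ₀, sub_self]
  obtain ⟨m', he, hd⟩ := Pool.Agent.PFD.D2b.H13.eqf R (H × H × H) M (Ω × Ω) ρ' c.π hfp m hm2
  have hqm : ∀ w w', q (m' (w, w')) = μ₀ (q (b w)) (q (b w')) := by
    intro w w'
    obtain ⟨x, hx⟩ := hd (w, w')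
    rw [← sub_add_cancel (m' (w, w')) (m (w, w')), hx, map_add, hm, hq.sc, kap_pi, zero_smul,
      zero_add]
  have he' : ∀ (g h l : H) (w w' : Ω), m' (((g, h) : H × H) • w, ((h, l) : H × H) • w') =
      ρ (g, l) (m' (w, w')) := fun g h l w w' => he (g, h, l) (w, w')
  let μ : M →ₗ[R] M →ₗ[R] M := LinearMap.mk₂ R
    (fun x y => ∑ w, ∑ w', (cc w x * cc w' y) • m' (w, w'))
    (by
      intro x x' y
      rw [← Finset.sum_add_distrib]
      refine Finset.sum_congr rfl fun w _ => ?_
      rw [← Finset.sum_add_distrib]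
      refine Finset.sum_congr rfl fun w' _ => ?_
      rw [map_add, add_mul, add_smul])
    (by
      intro r x y
      rw [Finset.smul_sum]
      refine Finset.sum_congr rfl fun w _ => ?_
      rw [Finset.smul_sum]
      refine Finset.sum_congr rfl fun w' _ => ?_
      rw [map_smul, smul_eq_mul, smul_smul, mul_assoc])
    (by
      intro x y y'
      rw [← Finset.sum_add_distrib]
      refine Finset.sum_congr rfl fun w _ => ?_
      rw [← Finset.sum_add_distrib]
      refine Finset.sum_congr rfl fun w' _ => ?_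
      rw [map_add, mul_add, add_smul])
    (by
      intro r x y
      rw [Finset.smul_sum]
      refine Finset.sum_congr rfl fun w _ => ?_
      rw [Finset.smul_sum]
      refine Finset.sum_congr rfl fun w' _ => ?_
      rw [map_smul, smul_eq_mul, smul_smul]
      congr 1
      ring)
  have hμa : ∀ x y, μ x y = ∑ w, ∑ w', (cc w x * cc w' y) • m' (w, w') := fun _ _ => rfl
  -- reindexing
  have r1 : ∀ (g : H × H) (x y : M), μ (ρ g x) y =
      ∑ w, ∑ w', (cc w x * cc w' y) • m' (g • w, w') := by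
    intro g x y
    rw [hμa, ← Equiv.sum_comp (MulAction.toPerm g)]
    refine Finset.sum_congr rfl fun w _ => ?_
    refine Finset.sum_congr rfl fun w' _ => ?_
    rw [MulAction.toPerm_apply, hc]
  have r2 : ∀ (g : H × H) (x y : M), μ x (ρ g y) =
      ∑ w, ∑ w', (cc w x * cc w' y) • m' (w, g • w') := by
    intro g x y
    rw [hμa]
    refine Finset.sum_congr rfl fun w _ => ?_
    rw [← Equiv.sum_comp (MulAction.toPerm g)]
    refine Finset.sum_congr rfl fun w' _ => ?_
    rw [MulAction.toPerm_apply, hc]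
  have one2 : ∀ w : Ω, (((1 : H), (1 : H)) : H × H) • w = w := fun w => one_smul (H × H) w
  refine ⟨μ, ⟨?_, ?_, ?_⟩, ?_⟩
  · intro g x y
    rw [r1, hμa, map_sum]
    refine Finset.sum_congr rfl fun w _ => ?_
    rw [map_sum]
    refine Finset.sum_congr rfl fun w' _ => ?_
    rw [map_smul, ← he' g 1 1, one2]
  · intro g x y
    rw [r1, r2]
    refine Finset.sum_congr rfl fun w _ => ?_
    refine Finset.sum_congr rfl fun w' _ => ?_
    have h := he' 1 g 1 w (((g⁻¹, 1) : H × H) • w')
    have e : ((g, 1) : H × H) • (((g⁻¹, 1) : H × H) • w') = w' := by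
      rw [smul_smul]
      have : ((g, 1) : H × H) * (g⁻¹, 1) = 1 := by simp
      rw [this, one_smul]
    rw [e] at h
    rw [h]
    have h1 : ρ (1, 1) = 1 := ρ.map_one
    rw [h1]
    rfl
  · intro g x y
    rw [r2, hμa, map_sum]
    refine Finset.sum_congr rfl fun w _ => ?_
    rw [map_sum]
    refine Finset.sum_congr rfl fun w' _ => ?_
    rw [map_smul, ← he' 1 1 g, one2]
  · intro x y
    have hx := hs x
    have hy := hs y
    have hqx : q x = ∑ w, c.κ (cc w x) • q (b w) := by
      conv_lhs => rw [← hx]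
      rw [map_sum]
      exact Finset.sum_congr rfl fun w _ => hq.sc _ _
    have hqy : q y = ∑ w, c.κ (cc w y) • q (b w) := by
      conv_lhs => rw [← hy]
      rw [map_sum]
      exact Finset.sum_congr rfl fun w _ => hq.sc _ _
    rw [hμa, map_sum, hqx, map_sum, LinearMap.sum_apply]
    refine Finset.sum_congr rfl fun w _ => ?_
    rw [map_sum, map_smul, LinearMap.smul_apply, hqy, map_sum, Finset.smul_sum]
    refine Finset.sum_congr rfl fun w' _ => ?_
    rw [hq.sc, hqm, map_mul, map_smul, smul_smul]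

end Pool.Agent.PSS.H81
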