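import Pool.Agent.PSS.StmtsS1a
import Pool.Agent.Helper10_PFD.Sug

/-!
# Squad PSS, row FLV (helper81): the form lifts
-/

set_option autoImplicit false

open scoped BigOperators

noncomputable section

namespace Pool.Agent.PSS.H81

open Pool.Agent.PSS
open Pool.Agent.PFD.D2 (Cdv FibG)
open Pool.Agent.PFD.D2b (FrR FPl)
open Finset

theorem pi_reg {R F : Type} [CommRing R] [Field F] (c : Cdv R F) (n : ℕ) (r : R)
    (h : c.π ^ n * r = 0) : r = 0 := by
  induction n generalizing r with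
  | zero => rwa [pow_zero, one_mul] at h
  | succ n ih =>
    rw [pow_succ', mul_assoc] at h
    exact ih r (c.reg _ h)

theorem kp {R F : Type} [CommRing R] [Field F] (c : Cdv R F) (r : R) : c.κ (c.π * r) = 0 :=
  (c.ker _).2 ⟨r, rfl⟩

theorem kpn {R F : Type} [CommRing R] [Field F] (c : Cdv R F) (n : ℕ) (hn : 1 ≤ n) (r : R) :
    c.κ (c.π ^ n * r) = 0 := by
  obtain ⟨m, rfl⟩ : ∃ m, n = m + 1 := ⟨n - 1, by omega⟩
  rw [pow_succ', mul_assoc]
  exact kp c _

section

variable {R F V A A' Ω : Type} [CommRing R] [Field F] {c : Cdv R F} [CommGroup V]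
    [Ring A] [Algebra F A] [Ring A'] [Algebra R A'] [Fintype Ω] [MulAction (V × V) Ω]
    {α : V →* A} {α' : V →* A'} (f : FibG A' A c) {b : Ω → A'} {cc : Ω → (A' →ₗ[R] R)}

include f in
theorem q_smul (r : R) (x : A') : f.q (r • x) = c.κ r • f.q x := by
  rw [Algebra.smul_def, map_mul, f.sc, ← Algebra.smul_def]

/-- functionals which are invariant under conjugation lift -/
theorem lift_fun (hα : ∀ v, f.q (α' v) = α v) (hfr : FrR (bw R α') b cc) (t₀ : A →ₗ[F] F)
    (ht : ∀ g x, t₀ (α g * x) = t₀ (x * α g)) :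
    ∃ t : A' →ₗ[R] R, (∀ g x, t (α' g * x) = t (x * α' g)) ∧ ∀ x, c.κ (t x) = t₀ (f.q x) := by
  classical
  obtain ⟨hb, hc, hs⟩ := hfr
  choose s hs' using c.surj
  let r : Ω → R := fun w => s (t₀ (f.q (b w)))
  let t : A' →ₗ[R] R := ∑ w, (LinearMap.lsmul R R (r w)).comp (cc w)
  have hta : ∀ x, t x = ∑ w, r w * cc w x := by
    intro x
    show (∑ w, (LinearMap.lsmul R R (r w)).comp (cc w)) x = _
    rw [LinearMap.sum_apply]
    rfl
  have hr : ∀ (g : V) (w : Ω), r (((g, g) : V × V) • w) = r w := by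
    intro g w
    show s _ = s _
    congr 1
    rw [hb]
    show t₀ (f.q (α' g * (b w * α' g⁻¹))) = _
    have h1 : f.q (α' g * (b w * α' g⁻¹)) = α g * (f.q (b w) * α g⁻¹) := by
      rw [map_mul, map_mul, hα, hα]
    rw [h1, ht, mul_assoc, ← map_mul, inv_mul_cancel, map_one, mul_one]
  have hinv : ∀ (g : V) (x : A'), t (α' g * (x * α' g⁻¹)) = t x := by
    intro g x
    rw [hta, hta, ← Equiv.sum_comp (MulAction.toPerm ((g, g) : V × V))]
    refine Finset.sum_congr rfl fun w _ => ?_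
    rw [MulAction.toPerm_apply, hr]
    congr 1
    exact hc (g, g) w x
  refine ⟨t, fun g x => ?_, fun x => ?_⟩
  · have h := hinv g (x * α' g)
    rw [mul_assoc x, ← map_mul, mul_inv_cancel, map_one, mul_one] at h
    exact h
  · rw [hta, map_sum]
    conv_rhs => rw [← hs x]
    rw [map_sum, map_sum]
    refine Finset.sum_congr rfl fun w _ => ?_
    rw [q_smul, map_smul, map_mul, smul_eq_mul, mul_comm]
    congr 1
    exact hs' _

/-- one step -/
theorem step {K : Type} [Fintype K] (hα : ∀ v, f.q (α' v) = α v) (hfr : FrR (bw R α') b cc)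
    (lam : A →ₗ[F] F) (u v : K → A) (hcs : Csm F α u v) (n : ℕ) (hn : 1 ≤ n) (l : A' →ₗ[R] R)
    (h1 : ∀ x, c.κ (l x) = lam (f.q x)) (h2 : ∀ g x, l (α' g * x) = l (x * α' g))
    (h3 : ∀ x y, ∃ r, l (x * y) - l (y * x) = c.π ^ n * r) :
    ∃ t : A' →ₗ[R] R, (∀ x, c.κ ((l - c.π ^ n • t) x) = lam (f.q x)) ∧
      (∀ g x, (l - c.π ^ n • t) (α' g * x) = (l - c.π ^ n • t) (x * α' g)) ∧
      ∀ x y, ∃ r, (l - c.π ^ n • t) (x * y) - (l - c.π ^ n • t) (y * x) = c.π ^ (n + 1) * r := by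
  classical
  choose d hd using h3
  have hu : ∀ x y r, l (x * y) - l (y * x) = c.π ^ n * r → d x y = r := by
    intro x y r h
    have h4 : c.π ^ n * (d x y - r) = 0 := by rw [mul_sub, ← hd, h, sub_self]
    exact sub_eq_zero.1 (pi_reg c n _ h4)
  have dal : ∀ x x' y, d (x + x') y = d x y + d x' y := by
    intro x x' y
    apply hu
    rw [mul_add (c.π ^ n), ← hd, ← hd, add_mul, mul_add y, map_add, map_add]
    ring
  have dsl : ∀ (r : R) x y, d (r • x) y = r * d x y := by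
    intro r x y
    apply hu
    rw [mul_left_comm, ← hd, smul_mul_assoc, mul_smul_comm, map_smul, map_smul, smul_eq_mul,
      smul_eq_mul]
    ring
  have dsw : ∀ x y, d x y = - d y x := by
    intro x y
    apply hu
    rw [mul_neg, ← hd]
    ring
  have dar : ∀ x y y', d x (y + y') = d x y + d x y' := by
    intro x y y'
    rw [dsw, dal, dsw y, dsw y']
    ring
  have dsr : ∀ (r : R) x y, d x (r • y) = r * d x y := by
    intro r x y
    rw [dsw, dsl, dsw y]
    ring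
  choose s hs using f.surj
  -- the reduction of `d` depends on the reductions
  have red1 : ∀ x x' y, f.q x = f.q x' → c.κ (d x y) = c.κ (d x' y) := by
    intro x x' y h
    have h4 : f.q (x - x') = 0 := by rw [map_sub, h, sub_self]
    obtain ⟨z, hz⟩ := f.ker _ h4
    have h5 : x = x' + c.π • z := by rw [← hz]; abel
    rw [h5, dal, dsl, map_add, kp, add_zero]
  have red : ∀ x x' y y', f.q x = f.q x' → f.q y = f.q y' → c.κ (d x y) = c.κ (d x' y') := by
    intro x x' y y' h h'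
    rw [red1 x x' y h, dsw, dsw x' y', map_neg, map_neg, red1 y y' x' h']
  let d₀ : A →ₗ[F] A →ₗ[F] F := LinearMap.mk₂ F (fun x y => c.κ (d (s x) (s y)))
    (by
      intro x x' y
      show c.κ (d (s (x + x')) (s y)) = c.κ (d (s x) (s y)) + c.κ (d (s x') (s y))
      rw [← map_add, ← dal]
      exact red1 _ _ _ (by rw [hs, map_add, hs, hs]))
    (by
      intro r x y
      obtain ⟨r', rfl⟩ := c.surj r
      show c.κ (d (s (c.κ r' • x)) (s y)) = c.κ r' * c.κ (d (s x) (s y))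
      rw [← map_mul, ← dsl]
      exact red1 _ _ _ (by rw [hs, q_smul, hs]))
    (by
      intro x y y'
      show c.κ (d (s x) (s (y + y'))) = c.κ (d (s x) (s y)) + c.κ (d (s x) (s y'))
      rw [← map_add, ← dar]
      exact red _ _ _ _ rfl (by rw [hs, map_add, hs, hs]))
    (by
      intro r x y
      obtain ⟨r', rfl⟩ := c.surj r
      show c.κ (d (s x) (s (c.κ r' • y))) = c.κ r' * c.κ (d (s x) (s y))
      rw [← map_mul, ← dsr]
      exact red _ _ _ _ rfl (by rw [hs, q_smul, hs]))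
  have hd₀ : ∀ x y, d₀ (f.q x) (f.q y) = c.κ (d x y) := by
    intro x y
    show c.κ (d (s (f.q x)) (s (f.q y))) = _
    exact red _ _ _ _ (hs _) (hs _)
  have asym : ∀ x y, d₀ x y = - d₀ y x := by
    intro x y
    rw [← hs x, ← hs y, hd₀, hd₀, dsw, map_neg]
  have cyc : ∀ x y z, d₀ (x * y) z + d₀ (y * z) x + d₀ (z * x) y = 0 := by
    intro x y z
    rw [← hs x, ← hs y, ← hs z, ← map_mul, ← map_mul, ← map_mul, hd₀, hd₀, hd₀, ← map_add,
      ← map_add]
    have h4 : d (s x * s y) (s z) + d (s y * s z) (s x) + d (s z * s x) (s y) = 0 := by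
      apply pi_reg c n
      rw [mul_add, mul_add, ← hd, ← hd, ← hd]
      simp only [mul_assoc]
      ring
    rw [h4, map_zero]
  have dg : ∀ x g, d₀ x (α g) = 0 := by
    intro x g
    rw [← hs x, ← hα, hd₀]
    have h4 : d (s x) (α' g) = 0 := by
      apply hu
      rw [mul_zero, h2, sub_self]
    rw [h4, map_zero]
  have bal : ∀ x g z, d₀ (x * α g) z = d₀ x (α g * z) := by
    intro x g z
    have h4 := cyc x (α g) z
    rw [dg, add_zero] at h4
    rw [asym x, eq_neg_iff_add_eq_zero]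
    exact h4
  let t₀ : A →ₗ[F] F := ∑ i, (d₀ (u i)).comp (LinearMap.mulLeft F (v i))
  have ht₀ : ∀ x, t₀ x = ∑ i, d₀ (u i) (v i * x) := by
    intro x
    show (∑ i, (d₀ (u i)).comp (LinearMap.mulLeft F (v i))) x = _
    rw [LinearMap.sum_apply]
    rfl
  have key : ∀ x y, t₀ (x * y) - t₀ (y * x) = d₀ x y := by
    intro x y
    let g : A →ₗ[F] A →ₗ[F] F := d₀.compl₂ (LinearMap.mulRight F x)
    have hg : ∀ a b, g a b = d₀ a (b * x) := fun _ _ => rfl
    have h4 := hcs.2 F g (fun a w b => by rw [hg, hg, bal, mul_assoc]) y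
    simp only [hg] at h4
    have h5 : ∑ i, d₀ (y * u i) (v i * x) =
        - d₀ x y + ∑ i, d₀ (u i) (v i * (x * y)) := by
      have h6 : ∀ i, d₀ (y * u i) (v i * x) =
          - d₀ (u i * v i * x) y + d₀ (u i) (v i * (x * y)) := by
        intro i
        have h7 := cyc y (u i) (v i * x)
        rw [asym (v i * x * y) (u i), mul_assoc (v i) x y, ← mul_assoc (u i)] at h7
        linear_combination h7
      rw [Finset.sum_congr rfl fun i _ => h6 i, Finset.sum_add_distrib, Finset.sum_neg_distrib]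
      congr 2
      have h8 : ∑ i, d₀ (u i * v i * x) y = d₀ ((∑ i, u i * v i) * x) y := by
        rw [Finset.sum_mul, map_sum, LinearMap.sum_apply]
      rw [h8, hcs.1, one_mul]
    rw [ht₀, ht₀]
    have h9 : ∑ i, d₀ (u i) (v i * (y * x)) = ∑ i, d₀ (u i) (v i * y * x) := by
      simp only [mul_assoc]
    rw [h9, ← h4, h5]
    ring
  obtain ⟨t, ht1, ht2⟩ := lift_fun f hα hfr t₀ (by
    intro g x
    have h4 := key (α g) x
    rw [asym, dg, neg_zero] at h4
    exact sub_eq_zero.1 h4)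
  have hap : ∀ x, (l - c.π ^ n • t) x = l x - c.π ^ n * t x := fun x => rfl
  refine ⟨t, ?_, ?_, ?_⟩
  · intro x
    rw [hap, map_sub, kpn c n hn, sub_zero, h1]
  · intro g x
    rw [hap, hap, h2, ht1]
  · intro x y
    have h4 : c.κ (d x y - (t (x * y) - t (y * x))) = 0 := by
      rw [map_sub, map_sub, ht2, ht2, map_mul f.q, map_mul f.q, key, hd₀, sub_self]
    obtain ⟨r, hr⟩ := (c.ker _).1 h4
    refine ⟨r, ?_⟩
    rw [hap, hap, pow_succ, mul_assoc, ← hr, mul_sub, ← hd]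
    ring

end

/-- row FLV -/
theorem flv : FlvStmt := by
  classical
  intro R F V A A' Ω K _ _ _ c _ _ _ _ _ _ _ _ _ _ α α' f b cc lam u v hα hfr hcs hsym
  let P : ℕ → (A' →ₗ[R] R) → Prop := fun n l => ∃ l' : A' →ₗ[R] R,
    (∃ δ : A' →ₗ[R] R, l - l' = c.π ^ n • δ) ∧ (∀ x, c.κ (l' x) = lam (f.q x)) ∧
    (∀ g x, l' (α' g * x) = l' (x * α' g)) ∧
    ∀ x y, ∃ r, l' (x * y) - l' (y * x) = c.π ^ n * r
  obtain ⟨l₀, g1, g2⟩ := lift_fun f hα hfr lam (fun g x => hsym _ _)
  have hstart : P 1 l₀ := by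
    refine ⟨l₀, ⟨0, by rw [sub_self, smul_zero]⟩, g2, g1, fun x y => ?_⟩
    rw [pow_one, ← c.ker, map_sub, g2, g2, map_mul f.q, map_mul f.q, hsym, sub_self]
  obtain ⟨z, hz⟩ := Pool.Agent.PFD.D2.H10.sug R F (A' →ₗ[R] R) c P
    (by
      rintro n x z ⟨l', ⟨δ, hδ⟩, h⟩
      refine ⟨l', ⟨δ + z, ?_⟩, h⟩
      rw [smul_add, ← hδ]
      abel)
    (by
      rintro n x hn ⟨l', ⟨δ, hδ⟩, h1, h2, h3⟩
      obtain ⟨t, t1, t2, t3⟩ := step f hα hfr lam u v hcs n hn l' h1 h2 h3
      refine ⟨-δ - t, l' - c.π ^ n • t, ⟨0, ?_⟩, t1, t2, t3⟩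
      rw [smul_zero, smul_sub, smul_neg, ← hδ]
      abel)
    l₀ hstart
  refine ⟨l₀ + c.π • z, fun x y => ?_, fun x => ?_⟩
  · apply sub_eq_zero.1
    apply c.sep
    intro n
    rcases Nat.eq_zero_or_pos n with rfl | hn
    · exact ⟨_, by rw [pow_zero, one_mul]⟩
    · obtain ⟨l', ⟨δ, hδ⟩, h1, h2, h3⟩ := hz n hn
      obtain ⟨r, hr⟩ := h3 x y
      refine ⟨r + (δ (x * y) - δ (y * x)), ?_⟩
      have e : ∀ w, (l₀ + c.π • z) w = l' w + c.π ^ n * δ w := by
        intro w
        have h4 := congrArg (fun φ : A' →ₗ[R] R => φ w) hδ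
        simp only [LinearMap.sub_apply, LinearMap.smul_apply, smul_eq_mul] at h4
        rw [← h4]
        ring
      rw [e, e, mul_add, mul_sub, ← hr]
      ring
  · show c.κ (l₀ x + c.π * z x) = _
    rw [map_add, kp, add_zero, g2]

end Pool.Agent.PSS.H81
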