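import Pool.Agent.PSS.StmtsS1e

/-!
# Squad PSS, row PER (helper81): the constant frame has the same restricted stabilisers
-/

set_option autoImplicit false

open scoped BigOperators

noncomputable section

namespace Pool.Agent.PSS.H81

open Pool.Agent.PSS
open Pool.Agent.PFC (tw)
open Pool.Agent.PFD.D2b (FrR)

/-- row PER -/
theorem per (hCFR : CfrStmt) : PerStmt := by
  classical
  intro F V E A _ _ _ _ _ φ W ψ α D₀ hψ hper
  obtain ⟨Ω, hΩ, hact, b, c, hfr, hst⟩ := hper
  let j : W × W →* V × V := W.subtype.prodMap W.subtype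
  let act : MulAction (W × W) Ω := MulAction.compHom Ω j
  have hsm : ∀ (g : W × W) (t : Ω), g • t = (j g) • t := fun _ _ => rfl
  have hfr' : FrR (bw F (aw α W)) b c := by
    obtain ⟨h1, h2, h3⟩ := hfr
    refine ⟨fun g t => ?_, fun g t n => ?_, h3⟩
    · rw [hsm, h1]
      rfl
    · rw [hsm]
      exact h2 (j g) t n
  obtain ⟨cs, hcs, -⟩ := hCFR F W A Ω (aw α W) D₀ b c hfr'
  refine ⟨Ω, hΩ, act, _, cs, hcs, fun ω => ?_⟩
  obtain ⟨e, S, hS⟩ := hst ω
  refine ⟨e, S.subgroupOf W, ?_⟩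
  ext ⟨u, v⟩
  have h1 : ((u, v) : W × W) ∈ MulAction.stabilizer (W × W) ω ↔
      (((u : V), (v : V)) : V × V) ∈ MulAction.stabilizer (V × V) ω := Iff.rfl
  rw [h1, hS]
  constructor
  · rintro ⟨s, hs, hs'⟩
    have h2 : φ e s = (u : V) := congrArg Prod.fst hs'
    have h3 : s = (v : V) := congrArg Prod.snd hs'
    subst h3
    refine ⟨v, hs, ?_⟩
    refine Prod.ext (Subtype.ext ?_) rfl
    show ((ψ e v : W) : V) = u
    rw [hψ, h2]
  · rintro ⟨s, hs, hs'⟩
    have h2 : ψ e s = u := congrArg Prod.fst hs'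
    have h3 : s = v := congrArg Prod.snd hs'
    subst h3
    refine ⟨(s : V), hs, ?_⟩
    refine Prod.ext ?_ rfl
    show φ e (s : V) = u
    rw [← hψ, h2]

end Pool.Agent.PSS.H81
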